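import Pool.Agent.V11247.Nrd.Final

/-!
# A Boolean predicate with non-redundancy strictly between linear and quadratic
-/

set_option autoImplicit false

namespace Pool.Agent.Results.MP_7c0615_lc.Intermediate

open Filter Topology Pool.Agent.V11247.Nrd

/-- **Result.** There is a Boolean predicate `P ⊆ {0,1}^{12}` such that `NRD(P,n) ≥ c n^{3/2}` for
some `c > 0` and all large `n`, hence `NRD(P,n)/n → ∞`, and `NRD(P,n)/n² → 0`. -/
theorem result : ∃ P : Set (Fin 12 → Bool),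
    (∃ c : ℝ, 0 < c ∧ ∀ᶠ n : ℕ in atTop, c * (n : ℝ) ^ ((3 : ℝ) / 2) ≤ NRD P n) ∧
    Tendsto (fun n : ℕ => (NRD P n : ℝ) / n) atTop atTop ∧
    Tendsto (fun n : ℕ => (NRD P n : ℝ) / n ^ 2) atTop (𝓝 0) :=
  ⟨P12, ⟨1 / 400, by norm_num, lower_eventually⟩, superlinear, subquadratic⟩

end Pool.Agent.Results.MP_7c0615_lc.Intermediate
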